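import Pool.Agent.H418R3.FB.Fin
import Pool.Agent.H418R3.FB.Neg2
import Pool.Agent.H948R3.FB_TaskEmb
import Pool.Agent.H644R3.FB.Space
import Pool.Agent.H471R3.FB.Proj
import Pool.Agent.H537R3.FB.Auto
import Pool.Agent.H418R3.FB.TaskMatrix
import Pool.Agent.H474R3.FB.TaskSmall
import Pool.Agent.H418R3.FB.Idx
import Pool.Agent.H510R3.FB.TreePos
import Pool.Agent.H165R3.FB.TreeNeg
import Pool.Agent.H600R3.FB_Ana
import Pool.Agent.H94R3.FB.TaskMeas
import Pool.Agent.H251R6.FB.Pos

/-! The set of closed subspaces of `C(ℝ)` (codes of separable Fréchet spaces) with a Schauder basis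
is not Borel, and every analytic set is a Borel preimage of it. -/

namespace Pool.Agent.Results.MP_708f28_lc.CompleteAnalytic

open Pool.Agent.H418R3.FB MeasureTheory

theorem result :
    (∀ (Z : Type) [TopologicalSpace Z] [PolishSpace Z] (B : Set Z), AnalyticSet B →
      ∃ f : Z → SF, @Measurable Z SF (borel Z) effros f ∧ B = f ⁻¹' SFb) ∧
    ¬ @MeasurableSet SF effros SFb :=
  final_of (Pool.Agent.H644R3.FB.taskSpace Pool.Agent.H948R3.FB.taskEmb) taskMeas taskPos
    (taskNeg taskProj Pool.Agent.H537R3.FB.taskAuto taskMatrix Small474.taskSmall Idx.taskIdx)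
    Idx.taskIdx Pool.Agent.H510R3.FB.taskTreePos Pool.Agent.H165R3.FB.taskTreeNeg
    Pool.Agent.H600R3.FBAna.taskAna

end Pool.Agent.Results.MP_708f28_lc.CompleteAnalytic
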